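import Pool.Agent.X238.Erp.Main

/-!
# The maximum path length after the (1,1) edge-removal process is of order `log n`

Start with the complete acyclic digraph on `n` vertices, examine its edges in a uniformly random
order and delete each examined edge, unless this would leave more than one initial vertex or more
than one terminal vertex (`step`, `state`, `output`).  Let `expectedLength n` be the expectation of
the maximum number of edges in a directed path of the output: the average of `maxPath (output σ)`
over all orders `σ` of the edges.

Then `c log n ≤ expectedLength n ≤ C log n` for all sufficiently large `n`, with constants
`0 < c` and `C`: the expectation is `Θ(log n)`.

The proof.  An edge `(a, b)` of the output is the last one examined of the edges with target `b` or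
the last one of the edges with source `a`.  For a path inside the left half of the vertices the
stars can be shrunk to disjoint sets of edges which are not much smaller, so that the probability
that the whole path is in the output is at most the product of the numbers `2 / b` over the targets
`b` of its edges; similarly for the right half.  The first moments of the numbers of the paths of
given length in one half, and of the paths from the vertex `0` to the middle vertex, are bounded by
elementary symmetric functions.
-/

namespace Pool.Agent.Results.MP_25bd62_pr.LogarithmicLength

open Filter Pool.Agent.X238.Erp

/-- The expected maximum directed path length of the output of the (1,1) edge-removal process is
`Θ(log n)`. -/
theorem result : ∃ c C : ℝ, 0 < c ∧ ∀ᶠ n : ℕ in atTop,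
    c * Real.log n ≤ expectedLength n ∧ expectedLength n ≤ C * Real.log n :=
  main

end Pool.Agent.Results.MP_25bd62_pr.LogarithmicLength
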